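import Pool.Agent.H34.TAM.Stmts2

/-!
Row SCL of the board `aut`: the grading of `E ⊗ E^op`.
-/

set_option autoImplicit false

noncomputable section

open Filter
open scoped Topology TensorProduct Polynomial

namespace Pool.AUT

open Pool.CGR Pool.CGS Pool.TAM MulOpposite

namespace H91

variable (m : ℕ)

/-- The left factor. -/
def S1 : Fr m →ₐ[ℂ] (Te m)[X] :=
  FreeAlgebra.lift ℂ fun k => Polynomial.C ((io k) ⊗ₜ[ℂ] (1 : (Fr m)ᵐᵒᵖ)) * Polynomial.X

/-- The right factor. -/
def S2o : Fr m →ₐ[ℂ] ((Te m)[X])ᵐᵒᵖ :=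
  FreeAlgebra.lift ℂ fun k => op (Polynomial.C ((1 : Fr m) ⊗ₜ[ℂ] op (io k)) * Polynomial.X)

/-- The right factor. -/
def S2 : (Fr m)ᵐᵒᵖ →ₐ[ℂ] (Te m)[X] := AlgHom.opComm (S2o m)

theorem S1_io (k : Fin m) : S1 m (io k) =
    Polynomial.C ((io k) ⊗ₜ[ℂ] (1 : (Fr m)ᵐᵒᵖ)) * Polynomial.X := by
  simp [S1, io]

theorem S2_io (k : Fin m) : S2 m (op (io k)) =
    Polynomial.C ((1 : Fr m) ⊗ₜ[ℂ] op (io k)) * Polynomial.X := by
  simp [S2, S2o, io]

theorem S2_alg (r : ℂ) : S2 m (op (algebraMap ℂ (Fr m) r)) = algebraMap ℂ _ r :=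
  (S2 m).commutes r

theorem comm0 (k : Fin m) (b : Fr m) : Commute (S1 m (io k)) (S2 m (op b)) := by
  induction b using FreeAlgebra.induction with
  | grade0 r =>
    rw [S2_alg]
    exact Algebra.commute_algebraMap_right _ _
  | grade1 j =>
    rw [S1_io, show (FreeAlgebra.ι ℂ j : Fr m) = io j from rfl, S2_io]
    have h : Commute (Polynomial.C ((io k) ⊗ₜ[ℂ] (1 : (Fr m)ᵐᵒᵖ)))
        (Polynomial.C ((1 : Fr m) ⊗ₜ[ℂ] op (io j)) : (Te m)[X]) := by
      rw [Commute, SemiconjBy, ← Polynomial.C_mul, ← Polynomial.C_mul]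
      simp
    exact (h.mul_left (Polynomial.commute_X _)).mul_right
      ((Polynomial.commute_X _).symm)
  | mul a b ha hb =>
    rw [op_mul, map_mul]
    exact hb.mul_right ha
  | add a b ha hb =>
    rw [op_add, map_add]
    exact ha.add_right hb

theorem comm1 (a : Fr m) (b : (Fr m)ᵐᵒᵖ) : Commute (S1 m a) (S2 m b) := by
  induction a using FreeAlgebra.induction with
  | grade0 r =>
    rw [AlgHom.commutes]
    exact Algebra.commute_algebraMap_left _ _
  | grade1 j => exact comm0 m j b.unop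
  | mul a b ha hb =>
    rw [map_mul]
    exact ha.mul_left hb
  | add a b ha hb =>
    rw [map_add]
    exact ha.add_left hb

/-- The grading homomorphism. -/
def S : Te m →ₐ[ℂ] (Te m)[X] := Algebra.TensorProduct.lift (S1 m) (S2 m) (comm1 m)

theorem S_tmul (a : Fr m) (b : (Fr m)ᵐᵒᵖ) : S m (a ⊗ₜ b) = S1 m a * S2 m b := by
  simp [S]

/-- The value at one. -/
def E1 : (Te m)[X] →+* Te m :=
  Polynomial.eval₂RingHom' (RingHom.id (Te m)) 1 fun _ => Commute.one_right _

theorem E1_C (a : Te m) : E1 m (Polynomial.C a) = a := by simp [E1]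

theorem E1_X : E1 m Polynomial.X = 1 := by simp [E1]

theorem E1_alg (r : ℂ) : E1 m (algebraMap ℂ _ r) = algebraMap ℂ _ r := by
  rw [Polynomial.algebraMap_apply, E1_C]

theorem E1_S1 (a : Fr m) : E1 m (S1 m a) = a ⊗ₜ[ℂ] (1 : (Fr m)ᵐᵒᵖ) := by
  induction a using FreeAlgebra.induction with
  | grade0 r =>
    rw [AlgHom.commutes, E1_alg, Algebra.TensorProduct.algebraMap_apply]
  | grade1 j =>
    rw [show (FreeAlgebra.ι ℂ j : Fr m) = io j from rfl, S1_io, map_mul, E1_C, E1_X, mul_one]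
  | mul a b ha hb =>
    rw [map_mul, map_mul, ha, hb, Algebra.TensorProduct.tmul_mul_tmul, mul_one]
  | add a b ha hb =>
    rw [map_add, map_add, ha, hb, TensorProduct.add_tmul]

theorem E1_S2 (b : Fr m) : E1 m (S2 m (op b)) = (1 : Fr m) ⊗ₜ[ℂ] op b := by
  induction b using FreeAlgebra.induction with
  | grade0 r =>
    rw [S2_alg, E1_alg, Algebra.TensorProduct.algebraMap_apply']
    rfl
  | grade1 j =>
    rw [show (FreeAlgebra.ι ℂ j : Fr m) = io j from rfl, S2_io, map_mul, E1_C, E1_X, mul_one]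
  | mul a b ha hb =>
    rw [op_mul, map_mul, map_mul, ha, hb, Algebra.TensorProduct.tmul_mul_tmul, mul_one]
  | add a b ha hb =>
    rw [op_add, map_add, map_add, ha, hb, TensorProduct.tmul_add]

theorem E1_S (z : Te m) : E1 m (S m z) = z := by
  induction z using TensorProduct.induction_on with
  | zero => simp
  | tmul a b =>
    rw [S_tmul, map_mul, E1_S1, show S2 m b = S2 m (op b.unop) from rfl, E1_S2,
      Algebra.TensorProduct.tmul_mul_tmul, mul_one, one_mul, op_unop]
  | add x y hx hy => rw [map_add, map_add, hx, hy]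

theorem c0_S1 (a : Fr m) : ∃ r : ℂ, (S1 m a).coeff 0 = algebraMap ℂ (Te m) r := by
  induction a using FreeAlgebra.induction with
  | grade0 r =>
    refine ⟨r, ?_⟩
    rw [AlgHom.commutes, Polynomial.algebraMap_apply, Polynomial.coeff_C_zero]
  | grade1 j =>
    refine ⟨0, ?_⟩
    rw [show (FreeAlgebra.ι ℂ j : Fr m) = io j from rfl, S1_io]
    simp
  | mul a b ha hb =>
    obtain ⟨r, hr⟩ := ha
    obtain ⟨s, hs⟩ := hb
    refine ⟨r * s, ?_⟩
    rw [map_mul, Polynomial.mul_coeff_zero, hr, hs, map_mul]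
  | add a b ha hb =>
    obtain ⟨r, hr⟩ := ha
    obtain ⟨s, hs⟩ := hb
    refine ⟨r + s, ?_⟩
    rw [map_add, Polynomial.coeff_add, hr, hs, map_add]

theorem c0_S2 (a : Fr m) : ∃ r : ℂ, (S2 m (op a)).coeff 0 = algebraMap ℂ (Te m) r := by
  induction a using FreeAlgebra.induction with
  | grade0 r =>
    refine ⟨r, ?_⟩
    rw [S2_alg, Polynomial.algebraMap_apply, Polynomial.coeff_C_zero]
  | grade1 j =>
    refine ⟨0, ?_⟩
    rw [show (FreeAlgebra.ι ℂ j : Fr m) = io j from rfl, S2_io]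
    simp
  | mul a b ha hb =>
    obtain ⟨r, hr⟩ := ha
    obtain ⟨s, hs⟩ := hb
    refine ⟨s * r, ?_⟩
    rw [op_mul, map_mul, Polynomial.mul_coeff_zero, hr, hs, map_mul]
  | add a b ha hb =>
    obtain ⟨r, hr⟩ := ha
    obtain ⟨s, hs⟩ := hb
    refine ⟨r + s, ?_⟩
    rw [op_add, map_add, Polynomial.coeff_add, hr, hs, map_add]

/-- The components. -/
def c (n : ℕ) : Te m →ₗ[ℂ] Te m where
  toFun z := (S m z).coeff n
  map_add' x y := by rw [map_add, Polynomial.coeff_add]
  map_smul' r x := by rw [map_smul, Polynomial.coeff_smul, RingHom.id_apply]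

theorem c_apply (n : ℕ) (z : Te m) : c m n z = (S m z).coeff n := rfl

end H91

theorem scl_thm : SCLStmt := by
  intro m
  refine ⟨H91.c m, ?_, ?_, ?_, ?_, ?_⟩
  · intro z
    refine ⟨(H91.S m z).natDegree + 1, ?_, ?_⟩
    · intro n hn
      rw [H91.c_apply]
      exact Polynomial.coeff_eq_zero_of_natDegree_lt (by omega)
    · have h := H91.E1_S m z
      have h2 : H91.E1 m (H91.S m z) = Polynomial.eval 1 (H91.S m z) := by
        rfl
      rw [h2, Polynomial.eval_eq_sum_range] at h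
      simp only [one_pow, mul_one] at h
      exact h
  · intro q z z'
    simp only [H91.c_apply, map_mul, Polynomial.coeff_mul]
  · intro z
    induction z using TensorProduct.induction_on with
    | zero => exact ⟨0, by simp⟩
    | tmul a b =>
      obtain ⟨r, hr⟩ := H91.c0_S1 m a
      obtain ⟨s, hs⟩ := H91.c0_S2 m b.unop
      refine ⟨r * s, ?_⟩
      rw [op_unop] at hs
      rw [H91.c_apply, H91.S_tmul, Polynomial.mul_coeff_zero, hr, hs, map_mul]
    | add x y hx hy =>
      obtain ⟨r, hr⟩ := hx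
      obtain ⟨s, hs⟩ := hy
      exact ⟨r + s, by rw [map_add, hr, hs, map_add]⟩
  · rw [H91.c_apply, map_one, Polynomial.coeff_one_zero]
  · intro q hq
    rw [H91.c_apply, map_one, Polynomial.coeff_one]
    simp [hq]

end Pool.AUT
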